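import Pool.Agent.Helper86.TC8.Base
import Pool.Agent.Helper86.TC8.Stmts

/-!
Module SRC (MP_e0a484_co, TC8): the free walker states of a branch have distinct sources.
-/

set_option autoImplicit false

namespace Pool.Agent.Helper12.TC8

open Finset Pool.Agent.Helper86.TC8
open scoped Classical

variable {V : Type}

/-- the walker moves away from the centre -/
def MA (G : CG V) (P : V → Bool) (z : V) (t0 : Bool) (W : List L) : Prop :=
  (t0 = true → P (act G W z) = true → Red (.n :: W)) ∧
  ((t0 = false ∨ P (act G W z) = false) → Red (.b :: W))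

theorem ma_b (G : CG V) (P : V → Bool) (z : V) (t0 : Bool) {W : List L} (h : Red (.b :: W)) :
    MA G P z t0 (.b :: W) :=
  ⟨fun _ _ => ⟨by decide, h⟩, fun _ => ⟨by decide, h⟩⟩

theorem src_word (G : CG V) (Z P : V → Bool) (z : V) : ∀ (k : ℕ) (t0 : Bool) (W : List L),
    Red W → MA G P z t0 W →
    ∃ (t' : Bool) (U : List L), (srcW G Z P k (t0, act G W z)).1 = (t', act G (U ++ W) z) ∧
      Red (U ++ W) ∧ U.length ≤ 2 * k ∧ (U = [] → t' = t0) := by
  intro k
  induction k with
  | zero => exact fun t0 W hW _ => ⟨t0, [], rfl, hW, by simp, fun _ => rfl⟩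
  | succ k ih =>
    intro t0 W hW hM
    cases t0 with
    | false =>
      have hb : Red (.b :: W) := hM.2 (Or.inl rfl)
      by_cases hz : Z (G.bw (act G W z)) = true
      · refine ⟨false, [], ?_, hW, by simp, fun _ => rfl⟩
        simp [srcW, stepW, hz]
      · obtain ⟨t', U, h1, h2, h3, -⟩ := ih (P (act G W z)) (.b :: W) hb (ma_b G P z _ hb)
        refine ⟨t', U ++ [.b], ?_, by simpa using h2, by simp; omega, by simp⟩
        have h4 : (srcW G Z P (k + 1) (false, act G W z)).1 =
            (srcW G Z P k (P (act G W z), act G (.b :: W) z)).1 := by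
          simp [srcW, stepW, hz, act1]
        rw [h4, h1]
        simp
    | true =>
      by_cases hP : P (act G W z) = true
      · have hn : Red (.n :: W) := hM.1 rfl hP
        by_cases hz : Z (G.nu (act G W z)) = true
        · refine ⟨true, [], ?_, hW, by simp, fun _ => rfl⟩
          simp [srcW, stepW, hz, hP]
        · by_cases hz2 : Z (G.bw (G.nu (act G W z))) = true
          · refine ⟨false, [.n], ?_, hn, by simp; omega, by simp⟩
            simp [srcW, stepW, hz, hP, hz2, act1]
          · have hbn : Red (.b :: .n :: W) := ⟨by decide, hn⟩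
            obtain ⟨t', U, h1, h2, h3, -⟩ := ih false (.b :: .n :: W) hbn (ma_b G P z _ hbn)
            refine ⟨t', U ++ [.b, .n], ?_, by simpa using h2, by simp; omega, by simp⟩
            have h4 : (srcW G Z P (k + 1) (true, act G W z)).1 =
                (srcW G Z P k (false, act G (.b :: .n :: W) z)).1 := by
              simp [srcW, stepW, hz, hP, hz2, act1]
            rw [h4, h1]
            simp
      · have hP' : P (act G W z) = false := by simpa using hP
        have hb : Red (.b :: W) := hM.2 (Or.inr hP')
        by_cases hz : Z (G.bw (act G W z)) = true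
        · refine ⟨true, [], ?_, hW, by simp, fun _ => rfl⟩
          simp [srcW, stepW, hz, hP']
        · obtain ⟨t', U, h1, h2, h3, -⟩ := ih true (.b :: W) hb (ma_b G P z _ hb)
          refine ⟨t', U ++ [.b], ?_, by simpa using h2, by simp; omega, by simp⟩
          have h4 : (srcW G Z P (k + 1) (true, act G W z)).1 =
              (srcW G Z P k (true, act G (.b :: W) z)).1 := by
            simp [srcW, stepW, hz, hP', act1]
          rw [h4, h1]
          simp

/-- different words, different vertices -/
theorem ne_of_words {G : CG V} {g : ℕ} (hF : Free G g) {W W' : List L} (hW : Red W) (hW' : Red W')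
    (hl : W.length + W'.length ≤ g) (z : V) (hne : W ≠ W') (t t' : Bool) :
    ((t, act G W z) : WS V) ≠ (t', act G W' z) := by
  intro h
  exact hne (hF.inj hW hW' hl (Prod.ext_iff.mp h).2)

/-- the two states of a leaf have distinct sources -/
theorem leaf_ne (G : CG V) (Z P : V → Bool) (z : V) (g : ℕ) (hF : Free G g) : ∀ (k : ℕ) (W : List L),
    Red (.b :: W) → (P (act G W z) = true → Red (.n :: W)) → 2 * W.length + 4 * k + 4 ≤ g →
    (srcW G Z P k (false, act G W z)).1 ≠ (srcW G Z P k (true, act G W z)).1 := by
  intro k
  induction k with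
  | zero =>
    intro W _ _ _ h
    exact Bool.false_ne_true (Prod.ext_iff.mp h).1
  | succ k ih =>
    intro W hb hn hl
    have hW : Red W := hb.tail
    by_cases hP : P (act G W z) = true
    · have hnW := hn hP
      have hbn : Red (.b :: .n :: W) := ⟨by decide, hnW⟩
      -- the first walker
      have hA : ∃ (t' : Bool) (U : List L), (srcW G Z P (k + 1) (false, act G W z)).1 =
          (t', act G (U ++ W) z) ∧ Red (U ++ W) ∧ U.length ≤ 2 * k + 1 ∧
          ((U = [] ∧ t' = false) ∨ ∃ U', U = U' ++ [.b]) := by
        by_cases hz : Z (G.bw (act G W z)) = true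
        · exact ⟨false, [], by simp [srcW, stepW, hz], hW, by simp, Or.inl ⟨rfl, rfl⟩⟩
        · obtain ⟨t', U, h1, h2, h3, -⟩ := src_word G Z P z k (P (act G W z)) (.b :: W) hb
            (ma_b G P z _ hb)
          refine ⟨t', U ++ [.b], ?_, by simpa using h2, by simp; omega, Or.inr ⟨U, rfl⟩⟩
          have h4 : (srcW G Z P (k + 1) (false, act G W z)).1 =
              (srcW G Z P k (P (act G W z), act G (.b :: W) z)).1 := by
            simp [srcW, stepW, hz, act1]
          rw [h4, h1]
          simp
      have hB : ∃ (t' : Bool) (U : List L), (srcW G Z P (k + 1) (true, act G W z)).1 =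
          (t', act G (U ++ W) z) ∧ Red (U ++ W) ∧ U.length ≤ 2 * k + 2 ∧
          ((U = [] ∧ t' = true) ∨ ∃ U', U = U' ++ [.n]) := by
        by_cases hz : Z (G.nu (act G W z)) = true
        · exact ⟨true, [], by simp [srcW, stepW, hz, hP], hW, by simp, Or.inl ⟨rfl, rfl⟩⟩
        · by_cases hz2 : Z (G.bw (G.nu (act G W z))) = true
          · exact ⟨false, [.n], by simp [srcW, stepW, hz, hP, hz2, act1], hnW, by simp,
              Or.inr ⟨[], rfl⟩⟩
          · obtain ⟨t', U, h1, h2, h3, -⟩ := src_word G Z P z k false (.b :: .n :: W) hbn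
              (ma_b G P z _ hbn)
            refine ⟨t', U ++ [.b, .n], ?_, by simpa using h2, by simp; omega,
              Or.inr ⟨U ++ [.b], by simp⟩⟩
            have h4 : (srcW G Z P (k + 1) (true, act G W z)).1 =
                (srcW G Z P k (false, act G (.b :: .n :: W) z)).1 := by
              simp [srcW, stepW, hz, hP, hz2, act1]
            rw [h4, h1]
            simp
      obtain ⟨t1, U1, h1, r1, l1, c1⟩ := hA
      obtain ⟨t2, U2, h2, r2, l2, c2⟩ := hB
      rw [h1, h2]
      intro h
      have h5 : U1 ++ W = U2 ++ W :=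
        hF.inj r1 r2 (by simp; omega) (Prod.ext_iff.mp h).2
      have h6 : U1 = U2 := List.append_cancel_right h5
      rcases c1 with ⟨rfl, rfl⟩ | ⟨U', rfl⟩
      · rcases c2 with ⟨-, rfl⟩ | ⟨U'', rfl⟩
        · exact Bool.false_ne_true (Prod.ext_iff.mp h).1
        · simp at h6
      · rcases c2 with ⟨rfl, -⟩ | ⟨U'', rfl⟩
        · simp at h6
        · have := (List.append_inj' h6 rfl).2
          simp at this
    · have hP' : P (act G W z) = false := by simpa using hP
      by_cases hz : Z (G.bw (act G W z)) = true
      · intro h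
        have h1 : (srcW G Z P (k + 1) (false, act G W z)).1 = (false, act G W z) := by
          simp [srcW, stepW, hz]
        have h2 : (srcW G Z P (k + 1) (true, act G W z)).1 = (true, act G W z) := by
          simp [srcW, stepW, hz, hP']
        rw [h1, h2] at h
        exact Bool.false_ne_true (Prod.ext_iff.mp h).1
      · have h1 : (srcW G Z P (k + 1) (false, act G W z)).1 =
            (srcW G Z P k (false, act G (.b :: W) z)).1 := by
          simp [srcW, stepW, hz, hP', act1]
        have h2 : (srcW G Z P (k + 1) (true, act G W z)).1 =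
            (srcW G Z P k (true, act G (.b :: W) z)).1 := by
          simp [srcW, stepW, hz, hP', act1]
        rw [h1, h2]
        exact ih (.b :: W) ⟨by decide, hb⟩ (fun _ => ⟨by decide, hb⟩) (by simp; omega)

theorem mtch_P {G : CG V} {s P : V → Bool} {d : ℕ} {a : L} {x : V} {t : Tr d}
    (h : mtch G s P d a x t) : P x = (root d t).P := by
  cases d with
  | zero => exact h.2
  | succ d => exact h.2.1

/-- words of the free states at the leaves -/
theorem freeL_prop (G : CG V) (s P : V → Bool) (z : V) : ∀ (d : ℕ) (a : L) (W : List L) (t : Tr d),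
    Red (a :: W) → mtch G s P d a (act G (a :: W) z) t → ∀ e ∈ freeL d a (a :: W) t,
    (∃ U : List L, e.2.1 = U ++ a :: W ∧ U.length = d) ∧ Red e.2.1 ∧ MA G P z e.1 e.2.1 := by
  intro d
  induction d with
  | zero =>
    intro a W t hW hm e he
    have hP : P (act G (a :: W) z) = (root 0 t).P := mtch_P hm
    have hP' : P (act G (a :: W) z) = t.P := hP
    cases a with
    | n =>
      simp only [freeL, leafFree] at he
      by_cases h : (t : St).P = true
      · rw [if_pos h] at he
        simp only [List.mem_singleton] at he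
        subst he
        exact ⟨⟨[], rfl, rfl⟩, hW, fun h => absurd h (by simp), fun _ => ⟨by decide, hW⟩⟩
      · rw [if_neg h] at he
        have hPf : P (act G (L.n :: W) z) = false := by rw [hP']; simpa using h
        simp only [List.mem_cons, List.not_mem_nil, or_false] at he
        rcases he with rfl | rfl
        · exact ⟨⟨[], rfl, rfl⟩, hW, fun h => absurd h (by simp), fun _ => ⟨by decide, hW⟩⟩
        · exact ⟨⟨[], rfl, rfl⟩, hW, fun _ h => absurd (hPf ▸ h) (by simp), fun _ => ⟨by decide, hW⟩⟩
    | b =>
      simp only [freeL, leafFree, List.mem_cons, List.not_mem_nil, or_false] at he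
      rcases he with rfl | rfl <;> exact ⟨⟨[], rfl, rfl⟩, hW, ma_b G P z _ hW⟩
    | f =>
      simp only [freeL, leafFree] at he
      by_cases h : (t : St).P = true
      · rw [if_pos h] at he
        simp only [List.mem_singleton] at he
        subst he
        have hPt : P (act G (L.f :: W) z) = true := by rw [hP']; exact h
        refine ⟨⟨[], rfl, rfl⟩, hW, fun _ _ => ⟨by decide, hW⟩, fun h' => ?_⟩
        rcases h' with h' | h'
        · exact absurd h' (by simp)
        · exact absurd (hPt ▸ h') (by simp)
      · rw [if_neg h] at he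
        simp at he
  | succ d ih =>
    intro a W t hW hm e he
    simp only [freeL, List.mem_append] at he
    rcases he with he | he
    · obtain ⟨⟨U, h1, h2⟩, h3, h4⟩ := ih (k1 a) (a :: W) t.2.1 ⟨k1_ne_inv a, hW⟩ hm.2.2.1 e he
      exact ⟨⟨U ++ [k1 a], by simpa using h1, by simpa using h2⟩, h3, h4⟩
    · obtain ⟨⟨U, h1, h2⟩, h3, h4⟩ := ih (k2 a) (a :: W) t.2.2 ⟨k2_ne_inv a, hW⟩ hm.2.2.2 e he
      exact ⟨⟨U ++ [k2 a], by simpa using h1, by simpa using h2⟩, h3, h4⟩

/-- the sources of the free states at the leaves are distinct -/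
theorem freeL_nodup (G : CG V) (Z s P : V → Bool) (z : V) (g k : ℕ) (hF : Free G g) :
    ∀ (d : ℕ) (a : L) (W : List L) (t : Tr d), Red (a :: W) →
    mtch G s P d a (act G (a :: W) z) t → 2 * (W.length + 1 + d) + 4 * k + 4 ≤ g →
    ((freeL d a (a :: W) t).map fun e => (srcW G Z P k (e.1, act G e.2.1 z)).1).Nodup := by
  intro d
  induction d with
  | zero =>
    intro a W t hW hm hl
    have hl' : 2 * (a :: W).length + 4 * k + 4 ≤ g := by simp at hl ⊢; omega
    cases a with
    | n =>
      simp only [freeL, leafFree]
      split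
      · simp
      · rename_i hPf
        have hPf' : P (act G (L.n :: W) z) = false := by
          have h1 : P (act G (L.n :: W) z) = (root 0 t).P := mtch_P hm
          rw [h1]
          have h2 : (t : St).P = false := by simpa using hPf
          exact h2
        have := leaf_ne G Z P z g hF k (.n :: W) ⟨by decide, hW⟩
          (fun h => absurd (hPf' ▸ h) (by simp)) hl'
        simpa using this
    | b =>
      simp only [freeL, leafFree]
      have := leaf_ne G Z P z g hF k (.b :: W) ⟨by decide, hW⟩ (fun _ => ⟨by decide, hW⟩) hl'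
      simpa using this
    | f =>
      simp only [freeL, leafFree]
      split <;> simp
  | succ d ih =>
    intro a W t hW hm hl
    simp only [freeL, List.map_append]
    have r1 : Red (k1 a :: a :: W) := ⟨k1_ne_inv a, hW⟩
    have r2 : Red (k2 a :: a :: W) := ⟨k2_ne_inv a, hW⟩
    rw [List.nodup_append]
    refine ⟨ih (k1 a) (a :: W) t.2.1 r1 hm.2.2.1 (by simp at hl ⊢; omega),
      ih (k2 a) (a :: W) t.2.2 r2 hm.2.2.2 (by simp at hl ⊢; omega), ?_⟩
    intro x hx y hy
    rw [List.mem_map] at hx hy
    obtain ⟨e, he, rfl⟩ := hx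
    obtain ⟨e', he', rfl⟩ := hy
    obtain ⟨⟨U, h1, h2⟩, h3, h4⟩ := freeL_prop G s P z d (k1 a) (a :: W) t.2.1 r1 hm.2.2.1 e he
    obtain ⟨⟨U', h1', h2'⟩, h3', h4'⟩ :=
      freeL_prop G s P z d (k2 a) (a :: W) t.2.2 r2 hm.2.2.2 e' he'
    obtain ⟨t1, X, q1, q2, q3, -⟩ := src_word G Z P z k e.1 e.2.1 h3 h4
    obtain ⟨t2, X', q1', q2', q3', -⟩ := src_word G Z P z k e'.1 e'.2.1 h3' h4'
    rw [q1, q1']
    refine ne_of_words hF q2 q2' ?_ z ?_ _ _
    · rw [h1, h1']
      simp only [List.length_append, List.length_cons]
      omega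
    · rw [h1, h1']
      intro h
      have h5 : (X ++ U ++ [k1 a]) ++ (a :: W) = (X' ++ U' ++ [k2 a]) ++ (a :: W) := by
        simpa using h
      have h6 := (List.append_inj' (List.append_cancel_right h5) rfl).2
      simp only [List.cons.injEq, and_true] at h6
      exact k1_ne_k2 a h6

theorem rootFree_prop (G : CG V) (Z s P : V → Bool) (z : V) (hz : Z z = true) (d k : ℕ) (a : L)
    (t : Tr d) (hm : mtch G s P d a (act G [a] z) t) : ∀ e ∈ rootFree a (root d t),
    e.2.1 = [a] ∧ (srcW G Z P (k + 1) (e.1, act G e.2.1 z)).1 = (e.1, act G [a] z) := by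
  intro e he
  have hP : P (act G [a] z) = (root d t).P := mtch_P hm
  cases a with
  | n =>
    simp only [rootFree] at he
    split at he
    · rename_i h
      simp only [List.mem_singleton] at he
      subst he
      refine ⟨rfl, ?_⟩
      have h1 : P (G.nu z) = true := by
        have : P (act G [L.n] z) = true := by rw [hP]; exact h
        exact this
      simp [srcW, stepW, act1, h1, G.nu_nu, hz]
    · simp at he
  | b => simp [rootFree] at he
  | f =>
    simp only [rootFree] at he
    split at he
    · simp only [List.mem_singleton] at he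
      subst he
      refine ⟨rfl, ?_⟩
      simp [srcW, stepW, act1, G.bw_fw, hz]
    · rename_i h
      have h1 : P (G.fw z) = false := by
        have : P (act G [L.f] z) = false := by rw [hP]; simpa using h
        exact this
      simp only [List.mem_cons, List.not_mem_nil, or_false] at he
      rcases he with rfl | rfl
      · exact ⟨rfl, by simp [srcW, stepW, act1, G.bw_fw, hz]⟩
      · exact ⟨rfl, by simp [srcW, stepW, act1, G.bw_fw, hz, h1]⟩

theorem rootFree_nodup (G : CG V) (Z s P : V → Bool) (z : V) (hz : Z z = true) (d k : ℕ) (a : L)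
    (t : Tr d) (hm : mtch G s P d a (act G [a] z) t) :
    ((rootFree a (root d t)).map fun e => (srcW G Z P (k + 1) (e.1, act G e.2.1 z)).1).Nodup := by
  have h1 : ((rootFree a (root d t)).map fun e => (srcW G Z P (k + 1) (e.1, act G e.2.1 z)).1) =
      (rootFree a (root d t)).map fun e => (e.1, act G [a] z) := by
    refine List.map_congr_left fun e he => ?_
    exact (rootFree_prop G Z s P z hz d k a t hm e he).2
  rw [h1]
  cases a with
  | n =>
    simp only [rootFree]
    split <;> simp
  | b => simp [rootFree]
  | f =>
    simp only [rootFree]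
    split <;> simp

theorem st_SRC : ST_SRC := by
  intro V C R D0 D1 H z a t s P hz hm _
  have hm' : mtch C.G s P R a (act C.G [a] z) t := hm
  have hF := H.free
  simp only [freeAll, List.map_append]
  rw [List.nodup_append]
  refine ⟨rootFree_nodup C.G C.Z s P z hz R C.LF a t hm',
    freeL_nodup C.G C.Z s P z _ (C.LF + 1) hF R a [] t (red_single a) hm' (by simp; omega), ?_⟩
  intro x hx y hy
  rw [List.mem_map] at hx hy
  obtain ⟨e, he, rfl⟩ := hx
  obtain ⟨e', he', rfl⟩ := hy
  obtain ⟨p1, p2⟩ := rootFree_prop C.G C.Z s P z hz R C.LF a t hm' e he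
  obtain ⟨⟨U', h1', h2'⟩, h3', h4'⟩ := freeL_prop C.G s P z R a [] t (red_single a) hm' e' he'
  obtain ⟨t2, X', q1', q2', q3', q4'⟩ := src_word C.G C.Z P z (C.LF + 1) e'.1 e'.2.1 h3' h4'
  rw [p2, q1']
  intro h
  have h5 : [a] = X' ++ e'.2.1 := by
    refine hF.inj (red_single a) q2' ?_ (Prod.ext_iff.mp h).2
    rw [h1']
    simp
    omega
  rw [h1'] at h5
  have h6 : X' = [] ∧ U' = [] := by
    have h7 := congrArg List.length h5
    simp at h7
    constructor
    · exact List.eq_nil_of_length_eq_zero (by omega)
    · exact List.eq_nil_of_length_eq_zero (by omega)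
  obtain ⟨hX, hU⟩ := h6
  have h8 : e.1 = e'.1 := by
    rw [← q4' hX]
    exact (Prod.ext_iff.mp h).1
  have hR : R = 0 := by rw [← h2', hU]; rfl
  subst hR
  cases a with
  | n =>
    simp only [rootFree] at he
    simp only [freeL, leafFree] at he'
    split at he
    · rename_i hh
      simp only [List.mem_singleton] at he
      have hh' : (t : St).P = true := hh
      rw [if_pos hh'] at he'
      simp only [List.mem_singleton] at he'
      rw [he, he'] at h8
      exact absurd h8 (by simp)
    · simp at he
  | b => simp [rootFree] at he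
  | f =>
    simp only [rootFree] at he
    simp only [freeL, leafFree] at he'
    split at he'
    · rename_i hh
      have hh' : (root 0 t).P = true := hh
      rw [if_pos hh'] at he
      simp only [List.mem_singleton] at he he'
      rw [he, he'] at h8
      exact absurd h8 (by simp)
    · simp at he'

end Pool.Agent.Helper12.TC8
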